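import Pool.Agent.H899.LG.Bd

/-!
# The nef cone of a projective variety, in terms of its function field

`P` is the set of the prime divisors of a smooth projective variety `Y` with the function field `K`,
and `H` is an ample divisor on `Y`. Since `Y` is the `Proj` of the ring of the sections of the
multiples of `H`, it is determined by `P` and `H`.
-/

set_option autoImplicit false
set_option linter.overlappingInstances false
set_option linter.unusedSectionVars false
set_option linter.unusedVariables false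

open FF Module Pool.Agent.K1H17.MC

namespace Pool.Agent.H899.NC

section

variable {k K : Type} [Field k] [Field K] [Algebra k K]

/-- The line bundle `𝒪_Y(D)` is generated by its global sections: for all large `m`, the products of
the sections of `𝒪_Y(D)` and of `𝒪_Y(m H)` span the space of the sections of `𝒪_Y(D + m H)`. (If
`𝒪_Y(D)` is globally generated, this follows from the vanishing theorem of Serre for the kernel of
`H⁰(𝒪_Y(D)) ⊗ 𝒪_Y → 𝒪_Y(D)`; and conversely, if it holds, then `𝒪_Y(D + m H)` is generated by such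
products for all large `m`, and therefore `𝒪_Y(D)` is globally generated.) -/
def IsGG (P : Set (Place k K)) (H D : P →₀ ℤ) : Prop :=
  ∃ m₀ : ℕ, ∀ m : ℕ, m₀ ≤ m → ∀ f, IsSec P (D + m • H) f →
    f ∈ Submodule.span k {x : K | ∃ a b, IsSec P D a ∧ IsSec P (m • H) b ∧ x = a * b}

/-- Properties of an ample divisor `H`: for every divisor `D` some `D + m H`, `m ≥ 1`, has no fixed
component, and `𝒪_Y(D + m H)` is globally generated for all large `m` (Serre). -/
structure IsAmple (P : Set (Place k K)) (H : P →₀ ℤ) : Prop where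
  mov : ∀ D : P →₀ ℤ, ∃ m : ℕ, 1 ≤ m ∧ Movable P (m • H + D)
  gg : ∀ D : P →₀ ℤ, ∃ m₀ : ℕ, ∀ m : ℕ, m₀ ≤ m → IsGG P H (m • H + D)

/-- The cone generated by the classes of the globally generated line bundles. -/
def Gg (P : Set (Place k K)) (H : P →₀ ℤ) : Set (N1 P) :=
  cls P '' cg {x | ∃ D, IsGG P H D ∧ x = rl P D}

/-- The nef cone `Nef(Y)`: the closure of the cone generated by the classes of the globally generated
line bundles. (The closed cone generated by the ample classes is the same.) -/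
def Nef (P : Set (Place k K)) (H : P →₀ ℤ) : Set (N1 P) := clo (Gg P H)

/-- The effective nef cone `Nef(Y)ᵉ`. -/
def NefE (P : Set (Place k K)) (H : P →₀ ℤ) : Set (N1 P) := Nef P H ∩ Eff P

theorem pbz_one {P : Set (Place k K)} (D : P →₀ ℤ) : pbz (1 : psAut P) D = D := by
  ext v
  rw [pbz_apply]
  congr 1

theorem pbz_mul {P : Set (Place k K)} (g h : psAut P) (D : P →₀ ℤ) :
    pbz (g * h) D = pbz g (pbz h D) := by
  ext v
  rw [pbz_apply, pbz_apply, pbz_apply]
  congr 1

theorem pbz_inv {P : Set (Place k K)} (g : psAut P) (D : P →₀ ℤ) : pbz g (pbz g⁻¹ D) = D := by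
  rw [← pbz_mul, mul_inv_cancel, pbz_one]

/-- `g` preserves the prime divisors of `Y` and the globally generated line bundles. -/
def PresGG (P : Set (Place k K)) (H : P →₀ ℤ) (g : K ≃ₐ[k] K) : Prop :=
  ∃ h : g ∈ psAut P, ∀ D, IsGG P H D ↔ IsGG P H (pbz ⟨g, h⟩ D)

theorem presGG_one (P : Set (Place k K)) (H : P →₀ ℤ) : PresGG P H 1 :=
  ⟨(psAut P).one_mem, fun D => by
    have h1 : (⟨1, (psAut P).one_mem⟩ : psAut P) = 1 := rfl
    rw [h1, pbz_one]⟩

theorem presGG_mul {P : Set (Place k K)} {H : P →₀ ℤ} {g h : K ≃ₐ[k] K} (hg : PresGG P H g)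
    (hh : PresGG P H h) : PresGG P H (g * h) := by
  obtain ⟨hg', hg⟩ := hg
  obtain ⟨hh', hh⟩ := hh
  refine ⟨(psAut P).mul_mem hg' hh', fun D => ?_⟩
  have h1 : (⟨g * h, (psAut P).mul_mem hg' hh'⟩ : psAut P) = ⟨g, hg'⟩ * ⟨h, hh'⟩ := rfl
  rw [h1, pbz_mul]
  exact (hh D).trans (hg _)

theorem presGG_inv {P : Set (Place k K)} {H : P →₀ ℤ} {g : K ≃ₐ[k] K} (hg : PresGG P H g) :
    PresGG P H g⁻¹ := by
  obtain ⟨hg', hg⟩ := hg
  refine ⟨(psAut P).inv_mem hg', fun D => ?_⟩
  have h1 : (⟨g⁻¹, (psAut P).inv_mem hg'⟩ : psAut P) = (⟨g, hg'⟩ : psAut P)⁻¹ := rfl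
  have h2 := hg (pbz (⟨g, hg'⟩ : psAut P)⁻¹ D)
  rw [pbz_inv] at h2
  rw [h1]
  exact h2.symm

/-- The group `Aut(Y)`: the pseudo-automorphisms `g` of `Y` such that `𝒪_Y(g^* D)` is globally
generated if and only if `𝒪_Y(D)` is. (Since `g` and its inverse are given by the sections of
`g^*(m H)` and of `(g⁻¹)^*(m H)` where `m H` is very ample, these are the automorphisms of `Y`.) -/
def autY (P : Set (Place k K)) (H : P →₀ ℤ) : Subgroup (K ≃ₐ[k] K) where
  carrier := {g | PresGG P H g}
  one_mem' := presGG_one P H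
  mul_mem' := presGG_mul
  inv_mem' := presGG_inv

theorem autY_le (P : Set (Place k K)) (H : P →₀ ℤ) : autY P H ≤ psAut P := fun _ h => h.1

/-- The action of `Aut(Y)` on `N¹(Y)`. -/
noncomputable def actY {P : Set (Place k K)} {H : P →₀ ℤ} (g : autY P H) : N1 P →ₗ[ℝ] N1 P :=
  act (P := P) ⟨g, autY_le P H g.2⟩

/-- **The nef cone conjecture** for `Y`: there is a rational polyhedral cone `Q` in `N¹(Y)` which is a
fundamental domain for the action of the group `Aut(Y)` on the effective nef cone: the translates of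
`Q` cover the effective nef cone, and the interiors of `Q` and of `g Q` are disjoint, unless `g` acts
trivially on `N¹(Y)`. -/
def NefConeConjecture (P : Set (Place k K)) (H : P →₀ ℤ) : Prop :=
  ∃ Q : Set (N1 P), RP (lat P) Q ∧ (⋃ g : autY P H, actY g '' Q) = NefE P H ∧
    ∀ g : autY P H, (inn Q ∩ actY g '' inn Q).Nonempty →
      actY g = LinearMap.id

/-- The linear form `ℓ` cuts out a facet (a face of codimension one) of the cone `cn t`, and the facet
contains an ample class: `ℓ ≠ 0` is nonnegative on the cone and vanishes on enough generators to span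
its kernel. -/
def IsWall (P : Set (Place k K)) (H : P →₀ ℤ) {m : ℕ} (t : Fin m → N1 P) (ℓ : N1 P →ₗ[ℝ] ℝ) : Prop :=
  ℓ ≠ 0 ∧ (∀ j, 0 ≤ ℓ (t j)) ∧ LinearMap.ker ℓ ≤ Submodule.span ℝ {x | ∃ j, ℓ (t j) = 0 ∧ x = t j} ∧
    ∃ x ∈ cn t, ℓ x = 0 ∧ x ∈ inn (NefE P H)

/-- The cone `Q` contains the facet of `cn t` which is cut out by `ℓ`, and a point on the other
side. -/
def Crosses {P : Set (Place k K)} {m : ℕ} (t : Fin m → N1 P) (ℓ : N1 P →ₗ[ℝ] ℝ) (Q : Set (N1 P)) :
    Prop :=
  (∀ j, ℓ (t j) = 0 → t j ∈ Q) ∧ ∃ y ∈ Q, ℓ y < 0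

/-- A *certificate*: the classes `t i j` are integral and nef and effective, every cone `cn (t i)`
is full-dimensional, and for every facet of `cn (t i)` which contains an ample class there is a
translate `g (cn (t i'))`, `g ∈ S`, which contains the facet and a point on the other side. -/
structure Certificate (P : Set (Place k K)) (H : P →₀ ℤ)
    (S : Set (autY P H)) {N : ℕ} {m : Fin N → ℕ} (t : ∀ i, Fin (m i) → N1 P) : Prop where
  lattice : ∀ i j, t i j ∈ lat P
  nef : ∀ i j, t i j ∈ NefE P H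
  full : ∀ i, Submodule.span ℝ (Set.range (t i)) = ⊤
  walls : ∀ i (ℓ : N1 P →ₗ[ℝ] ℝ), IsWall P H (t i) ℓ →
    ∃ g ∈ S, ∃ i', Crosses (t i) ℓ (actY g '' cn (t i'))

/-- There is a certificate with finitely many cones and finitely many automorphisms. -/
def HasCertificate (P : Set (Place k K)) (H : P →₀ ℤ) : Prop :=
  ∃ (S : Finset (autY P H)) (N : ℕ) (m : Fin N → ℕ) (t : ∀ i, Fin (m i) → N1 P),
    0 < N ∧ Certificate P H (S : Set (autY P H)) t

/-- There is a certificate with one cone and finitely many automorphisms. -/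
def HasCertificate₁ (P : Set (Place k K)) (H : P →₀ ℤ) : Prop :=
  ∃ (S : Finset (autY P H)) (m : ℕ) (t : Fin m → N1 P),
    Certificate P H (S : Set (autY P H)) (N := 1) fun _ => t

/-- The translates of the cones `cn (t i)` by the group `⟨S⟩` generated by `S` cover the effective nef
cone. -/
def Covers (P : Set (Place k K)) (H : P →₀ ℤ) (S : Set (autY P H)) {N : ℕ} {m : Fin N → ℕ}
    (t : ∀ i, Fin (m i) → N1 P) : Prop :=
  ∀ x ∈ NefE P H, ∃ g ∈ Subgroup.closure S, ∃ i, x ∈ actY g '' cn (t i)

/-- The image of the group `⟨S⟩` in `GL(N¹(Y))` has finite index in the image of `Aut(Y)`: it has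
finitely many cosets. -/
def FinIndex (P : Set (Place k K)) (H : P →₀ ℤ) (S : Set (autY P H)) : Prop :=
  ∃ F : Finset (autY P H), ∀ g : autY P H, ∃ h ∈ Subgroup.closure S, ∃ f ∈ F,
    actY g = actY h ∘ₗ actY f

end

end Pool.Agent.H899.NC
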