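import Pool.Agent.H899.NC.Defs

/-! Certificates for a subgroup and an invariant cone of effective classes. -/

set_option autoImplicit false
set_option linter.overlappingInstances false
set_option linter.unusedSectionVars false
set_option linter.unusedVariables false

open FF Module Pool.Agent.K1H17.MC Pool.Agent.H899.LG

namespace Pool.Agent.H899.NC

section

variable {k K : Type} [Field k] [Field K] [Algebra k K] {P : Set (Place k K)}
  {A : Type} [Group A] {φ : A →* psAut P} {C : Set (N1 P)}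

/-- An invariant cone of effective classes. -/
structure InvC (φ : A →* psAut P) (C : Set (N1 P)) (H : P →₀ ℤ) : Prop where
  cone : IsCone C
  eff : C ⊆ Eff P
  inv : ∀ g, ∀ x ∈ C, rho P (φ g) x ∈ C
  amp : cls P (rl P H) ∈ inn C
  ample : ∀ D : P →₀ ℤ, ∃ m : ℕ, 1 ≤ m ∧ Movable P (m • H + D)

/-- The representation of the group. -/
noncomputable abbrev rA (φ : A →* psAut P) : A →* Module.End ℝ (N1 P) :=
  (rho P).comp φ

variable {H : P →₀ ℤ}

theorem InvC.cloE_cone (h : InvC φ C H) : IsCone (clo C ∩ Eff P) where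
  zero := ⟨(clo_cone h.cone).zero, Eff_cone.zero⟩
  add := fun x hx y hy =>
    ⟨(clo_cone h.cone).add _ hx.1 _ hy.1, Eff_cone.add _ hx.2 _ hy.2⟩
  smul := fun c hc x hx =>
    ⟨(clo_cone h.cone).smul _ hc _ hx.1, Eff_cone.smul _ hc _ hx.2⟩

theorem InvC.sub (h : InvC φ C H) : C ⊆ clo C ∩ Eff P := fun x hx => ⟨sub_clo hx, h.eff hx⟩

theorem inn_mono {V : Type*} [AddCommGroup V] [Module ℝ V] {C C' : Set V} (h : C ⊆ C') :
    inn C ⊆ inn C' := fun x hx v => by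
  obtain ⟨ε, hε, h1⟩ := hx v
  exact ⟨ε, hε, h h1⟩

theorem InvC.dat (h : InvC φ C H) {ξ : N1 P →ₗ[ℝ] ℝ} (hξ0 : ∀ x ∈ Eff P, 0 ≤ ξ x)
    (hd : Dat (lat P) (MovE P) (rho P) ξ) : Dat (lat P) (clo C ∩ Eff P) (rA φ) ξ where
  cone := h.cloE_cone
  stabΛ := fun g x hx => hd.stabΛ (φ g) x hx
  stabC := fun g x hx =>
    ⟨clo_map (rho P (φ g)) (fun y hy => h.inv g y hy) hx.1, rho_Eff (φ g) hx.2⟩
  int := hd.int
  nonneg := fun x hx => hξ0 x hx.2
  stab := by
    refine hd.stab.subset ?_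
    rintro f ⟨⟨g, hg⟩, hf⟩
    exact ⟨⟨φ g, hg⟩, hf⟩
  sep := hd.sep

theorem InvC.dat_clo (h : InvC φ C H) {ξ : N1 P →ₗ[ℝ] ℝ} (hξ0 : ∀ x ∈ Eff P, 0 ≤ ξ x)
    (hd : Dat (lat P) (MovE P) (rho P) ξ) : Dat (lat P) (clo C) (rA φ) ξ where
  cone := clo_cone h.cone
  stabΛ := fun g x hx => hd.stabΛ (φ g) x hx
  stabC := fun g x hx => clo_map (rho P (φ g)) (fun y hy => h.inv g y hy) hx
  int := hd.int
  nonneg := by
    rintro x ⟨b, hb⟩
    by_contra hx
    push Not at hx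
    have h1 : ∀ ε : ℝ, 0 < ε → 0 ≤ ξ x + ε * ξ b := fun ε hε => by
      have := hξ0 _ (h.eff (hb ε hε))
      rwa [map_add, map_smul, smul_eq_mul] at this
    have h2 := h1 (-ξ x / (2 * (1 + |ξ b|))) (div_pos (by linarith) (by positivity))
    have h3 : -ξ x / (2 * (1 + |ξ b|)) * ξ b ≤ -ξ x / 2 := by
      have h4 : -ξ x / (2 * (1 + |ξ b|)) * ξ b ≤ -ξ x / (2 * (1 + |ξ b|)) * (1 + |ξ b|) :=
        mul_le_mul_of_nonneg_left (by linarith [le_abs_self (ξ b)])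
          (div_nonneg (by linarith) (by positivity))
      have h5 : -ξ x / (2 * (1 + |ξ b|)) * (1 + |ξ b|) = -ξ x / 2 := by
        have : (1 + |ξ b|) ≠ 0 := by positivity
        field_simp
      linarith
    linarith
  stab := (h.dat hξ0 hd).stab
  sep := hd.sep

/-- The translates by a subgroup of rational polyhedral cones which cover the interior cover
everything. -/
theorem InvC.cover (h : InvC φ C H) (hbase : HasBase P) (G : Subgroup A)
    {κ : Type} [Finite κ]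
    {Q : κ → Set (N1 P)} (hQ : ∀ i, RP (lat P) (Q i)) (hQM : ∀ i, Q i ⊆ clo C)
    (hcov : ∀ x ∈ inn (clo C ∩ Eff P), ∃ γ : G, ∃ i, ∃ y ∈ Q i, x = (rA φ).comp G.subtype γ y) :
    ∀ x ∈ clo C ∩ Eff P, ∃ γ : G, ∃ i, ∃ y ∈ Q i, x = (rA φ).comp G.subtype γ y := by
  classical
  obtain ⟨n, b, ξ, hb, hbz, hξE, hξ0, hdat⟩ := exists_datE ⟨H, h.ample⟩ hbase
  intro x hx
  obtain ⟨w, ⟨l, u, hu, a, ha, hw⟩, hwx⟩ := id hx.2
  let J := {i : Fin l // 0 < a i}
  choose D hD hDr using hu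
  have hsum : x = ∑ j : J, a j • cls P (rl P (D j)) := by
    rw [← hwx, hw, map_sum]
    simp only [map_smul]
    have h1 : ∑ i, a i • cls P (u i) =
        ∑ i ∈ Finset.univ.filter (fun i => 0 < a i), a i • cls P (u i) := by
      rw [Finset.sum_filter_of_ne]
      intro i _ hi
      refine lt_of_le_of_ne (ha i) fun h0 => hi ?_
      rw [← h0, zero_smul]
    rw [h1, Finset.sum_subtype (Finset.univ.filter fun i => 0 < a i) (p := fun i => 0 < a i)
      (fun i => by simp)]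
    exact Finset.sum_congr rfl fun j _ => by rw [hDr]
  have hDE : ∀ i, cls P (rl P (D i)) ∈ Eff P := fun i => ⟨_, cg_gen ⟨D i, hD i, rfl⟩, rfl⟩
  have hHi : cls P (rl P H) ∈ inn (clo C ∩ Eff P) := inn_mono h.sub h.amp
  choose γ i y hy hxy using fun N : ℕ => hcov (x + (1 / ((N : ℝ) + 1)) • cls P (rl P H)) (by
    rw [add_comm]
    exact inn_add h.cloE_cone (inn_smul h.cloE_cone hHi (by positivity)) hx)
  obtain ⟨c, hc⟩ := Finite.exists_infinite_fiber i
  obtain ⟨nQ, t, ht, hQt⟩ := hQ c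
  obtain ⟨g, q, hq, h⟩ := bigcov (J := J) (Dat.restrict (h.dat_clo hξ0 hdat) G)
    (fun γ x => rho_Eff (φ (γ : A))) hξ0 (fin_deg b hbz hξE) ht
    (fun l => hQM c (by rw [hQt]; exact gen_mem t l)) (D := fun j => cls P (rl P (D j)))
    (fun j => cls_rl_mem _)
    (fun j => hDE _) (a := fun j => a j) (fun j => j.2) (cls_rl_mem H) (inn_sub hHi).2 (by
      intro δ hδ
      obtain ⟨N, hN⟩ : ∃ N : i ⁻¹' {c}, 1 / (((N : ℕ) : ℝ) + 1) < δ := by
        obtain ⟨N0, hN0'⟩ := exists_nat_gt (1 / δ)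
        by_contra hcon
        push Not at hcon
        have hle : ∀ N : i ⁻¹' {c}, (N : ℕ) ∈ Set.Iic N0 := by
          intro N
          rw [Set.mem_Iic]
          by_contra h1
          push Not at h1
          have h2 := hcon N
          have h3 : (N0 : ℝ) < (N : ℕ) := by exact_mod_cast h1
          have h4 : 1 / δ < ((N : ℕ) : ℝ) + 1 := by linarith
          have h5 : 1 / (((N : ℕ) : ℝ) + 1) < δ := by
            rw [div_lt_iff₀ (by positivity)]
            rw [div_lt_iff₀ hδ] at h4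
            linarith
          linarith
        have h6 : Finite (i ⁻¹' {c}) := by
          refine Finite.of_injective (fun N : i ⁻¹' {c} => (⟨_, hle N⟩ : Set.Iic N0)) ?_
          intro x y h
          exact Subtype.ext (Subtype.mk.inj h)
        exact not_finite_iff_infinite.2 hc h6
      refine ⟨_, by positivity, hN, γ N, y N, ?_, ?_⟩
      · have h1 := hy N
        have h2 : i N = c := N.2
        rw [h2, hQt] at h1
        exact h1
      · rw [← hsum]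
        exact hxy N)
  exact ⟨g, c, q, by rw [hQt]; exact hq, by rw [hsum]; exact h⟩

/-- A certificate. -/
structure CertG (φ : A →* psAut P) (C : Set (N1 P)) (S : Set A) {N : ℕ} {m : Fin N → ℕ}
    (t : ∀ i, Fin (m i) → N1 P) : Prop where
  lattice : ∀ i j, t i j ∈ lat P
  mem : ∀ i j, t i j ∈ C
  full : ∀ i, Submodule.span ℝ (Set.range (t i)) = ⊤
  walls : ∀ i (ℓ : N1 P →ₗ[ℝ] ℝ), ℓ ≠ 0 → (∀ j, 0 ≤ ℓ (t i j)) →
    LinearMap.ker ℓ ≤ Submodule.span ℝ {x | ∃ j, ℓ (t i j) = 0 ∧ x = t i j} →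
    (∃ x ∈ cn (t i), ℓ x = 0 ∧ x ∈ inn C) →
    ∃ g ∈ S, ∃ i', (∀ j, ℓ (t i j) = 0 → t i j ∈ act (φ g) '' cn (t i')) ∧
      ∃ y ∈ act (φ g) '' cn (t i'), ℓ y < 0

/-- There is a fundamental domain. -/
def HasDom (φ : A →* psAut P) (C : Set (N1 P)) : Prop :=
  ∃ Q : Set (N1 P), RP (lat P) Q ∧ (⋃ g : A, act (φ g) '' Q) = C ∧
    ∀ g : A, (inn Q ∩ act (φ g) '' inn Q).Nonempty → act (φ g) = LinearMap.id

theorem InvC.cov (h : InvC φ C H) {S : Set A} {N : ℕ} {m : Fin N → ℕ}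
    {t : ∀ i, Fin (m i) → N1 P} (hc : CertG φ (clo C ∩ Eff P) S t) (hN : 0 < N)
    (hbase : HasBase P) : ∀ x ∈ inn (clo C ∩ Eff P), ∃ γ : Subgroup.closure S, ∃ i,
      ∃ y ∈ cn (t i), x = (rA φ).comp (Subgroup.closure S).subtype γ y := by
  classical
  obtain ⟨n, b, ξ, hb, hbz, hξE, hξ0, hdat⟩ := exists_datE ⟨H, h.ample⟩ hbase
  have hd := Dat.restrict (h.dat hξ0 hdat) (Subgroup.closure S)
  have : Nonempty (Fin N) := ⟨⟨0, hN⟩⟩
  refine wall_crossing hd b hb hc.lattice hc.mem hc.full ?_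
  intro i ℓ h1 h2 h3 h4
  obtain ⟨g, hg, i', h5, h6⟩ := hc.walls i ℓ h1 h2 h3 h4
  exact ⟨⟨g, Subgroup.subset_closure hg⟩, i', h5, h6⟩

/-- A fundamental domain gives a certificate. -/
theorem InvC.one (h : InvC φ C H) (hbase : HasBase P) (hdom : HasDom φ (clo C ∩ Eff P)) :
    ∃ (S : Finset A) (m : ℕ) (t : Fin m → N1 P),
      CertG φ (clo C ∩ Eff P) (S : Set A) (N := 1) fun _ => t := by
  classical
  obtain ⟨n, b, ξ, hb, hbz, hξE, hξ0, hdat⟩ := exists_datE ⟨H, h.ample⟩ hbase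
  have hd := h.dat hξ0 hdat
  have hcc := h.cloE_cone
  obtain ⟨Q, hQ, hQM, -⟩ := hdom
  have hQC : Q ⊆ clo C ∩ Eff P := by
    rw [← hQM]
    intro x hx
    exact Set.mem_iUnion.2 ⟨1, x, hx, by change rho P (φ 1) x = x; rw [map_one, map_one]; rfl⟩
  have hcov : ∀ x ∈ clo C ∩ Eff P, ∃ γ, ∃ y ∈ Q, x = rA φ γ y := by
    intro x hx
    rw [← hQM, Set.mem_iUnion] at hx
    obtain ⟨γ, y, hy, h⟩ := hx
    exact ⟨γ, y, hy, h.symm⟩
  obtain ⟨m, t, ht, hD, hDcov, x0, hx0, hx0i⟩ := dirichlet hd b hb hQ hQC hcov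
    (inn_mono h.sub h.amp)
  obtain ⟨S, hS⟩ := exists_cert hd b hb ht hD hDcov
  have htC : ∀ j, t j ∈ clo C ∩ Eff P := fun j => by
    have h1 := gen_mem t j
    rw [hD] at h1
    exact h1.1
  refine ⟨S, m, t, fun _ => ht, fun _ => htC,
    fun _ => full_of_cover hd b hb ht htC hDcov hx0i, ?_⟩
  rintro i ℓ hℓ0 hℓ hker ⟨x, ⟨a, ha, hxa⟩, hℓx, hxi⟩
  obtain ⟨J, hJ⟩ : ∃ J : Finset (Fin m), J = Finset.univ.filter fun j => ℓ (t j) = 0 := ⟨_, rfl⟩
  have haJ : ∀ j, j ∉ J → a j = 0 := by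
    intro j hj
    have h1 : ∑ j, a j * ℓ (t j) = 0 := by
      rw [← hℓx, hxa, map_sum]
      exact Finset.sum_congr rfl fun j _ => by rw [map_smul, smul_eq_mul]
    have h2 := (Finset.sum_eq_zero_iff_of_nonneg fun j _ => mul_nonneg (ha j) (hℓ j)).1 h1 j
      (Finset.mem_univ j)
    rcases mul_eq_zero.1 h2 with h3 | h3
    · exact h3
    · exact absurd (by rw [hJ, Finset.mem_filter]; exact ⟨Finset.mem_univ _, h3⟩) hj
  obtain ⟨c, hc0, hca⟩ : ∃ c : ℝ, 0 < c ∧ ∀ j, a j ≤ c := by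
    refine ⟨1 + ∑ j, a j, by
      have := Finset.sum_nonneg fun j (_ : j ∈ Finset.univ) => ha j
      linarith, fun j => ?_⟩
    have := Finset.single_le_sum (fun j _ => ha j) (Finset.mem_univ j)
    linarith
  have heJ : ∑ j ∈ J, t j ∈ inn (clo C ∩ Eff P) := by
    have h1 : c • ∑ j ∈ J, t j = x + ∑ j ∈ J, (c - a j) • t j := by
      have h2 : x = ∑ j ∈ J, a j • t j := by
        rw [hxa]
        refine (Finset.sum_subset (Finset.subset_univ J) fun j _ hj => ?_).symm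
        rw [haJ j hj, zero_smul]
      rw [h2, ← Finset.sum_add_distrib, Finset.smul_sum]
      exact Finset.sum_congr rfl fun j _ => by rw [← add_smul]; congr 1; ring
    have h3 : c • ∑ j ∈ J, t j ∈ inn (clo C ∩ Eff P) := by
      rw [h1]
      exact inn_add hcc hxi (hcc.sum _ _ fun j hj =>
        hcc.smul _ (by linarith [hca j]) _ (htC j))
    have h4 := inn_smul hcc h3 (inv_pos.2 hc0)
    rwa [smul_smul, inv_mul_cancel₀ hc0.ne', one_smul] at h4
  obtain ⟨v, hv⟩ : ∃ v, ℓ v < 0 := by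
    obtain ⟨v, hv⟩ : ∃ v, ℓ v ≠ 0 := by
      by_contra hcon
      push Not at hcon
      exact hℓ0 (LinearMap.ext hcon)
    rcases lt_or_gt_of_ne hv with h1 | h1
    · exact ⟨v, h1⟩
    · exact ⟨-v, by rw [map_neg]; linarith⟩
  obtain ⟨ε, hε, g, hg, h1, h2⟩ := hS J heJ v
  refine ⟨g, hg, 0, fun j hj => h2 j (by
    rw [hJ, Finset.mem_filter]; exact ⟨Finset.mem_univ _, hj⟩), _, h1, ?_⟩
  rw [map_add, map_smul, map_sum, Finset.sum_eq_zero fun j hj => by
    rw [hJ, Finset.mem_filter] at hj; exact hj.2, zero_add, smul_eq_mul]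
  exact mul_neg_of_pos_of_neg hε hv

/-- A certificate gives a fundamental domain. -/
theorem InvC.all (h : InvC φ C H) (hbase : HasBase P) (S : Set A) (N : ℕ) (m : Fin N → ℕ)
    (t : ∀ i, Fin (m i) → N1 P) (hN : 0 < N) (hc : CertG φ (clo C ∩ Eff P) S t) :
    HasDom φ (clo C ∩ Eff P) ∧
      (∀ x ∈ clo C ∩ Eff P, ∃ g ∈ Subgroup.closure S, ∃ i, x ∈ act (φ g) '' cn (t i)) ∧
      ∃ F : Finset A, ∀ g : A, ∃ h ∈ Subgroup.closure S, ∃ f ∈ F,
        act (φ g) = act (φ h) ∘ₗ act (φ f) := by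
  classical
  obtain ⟨n, b, ξ, hb, hbz, hξE, hξ0, hdat⟩ := exists_datE ⟨H, h.ample⟩ hbase
  have hd := h.dat hξ0 hdat
  have hcc := h.cloE_cone
  have hcov := h.cov hc hN hbase
  have hQC : ∀ i, cn (t i) ⊆ clo C ∩ Eff P := fun i => cn_sub hcc (hc.mem i)
  have hall := h.cover hbase (Subgroup.closure S) (κ := Fin N)
      (Q := fun i => cn (t i)) (fun i => ⟨_, t i, hc.lattice i, rfl⟩)
      (fun i => (hQC i).trans Set.inter_subset_left) hcov
  refine ⟨?_, ?_, ?_⟩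
  · obtain ⟨Q1, hQ1, hQs, hQm⟩ := sum_RP (Λ := lat P) (fun i => cn (t i))
      fun i => ⟨_, t i, hc.lattice i, rfl⟩
    have hQ1M : Q1 ⊆ clo C ∩ Eff P := hQm _ hcc hQC
    obtain ⟨Q', h1, h2, h3⟩ := hd.fund hQ1 hQ1M fun x hx => by
      obtain ⟨g, i, y, hy, h⟩ := hall x hx
      exact ⟨g, y, hQs i hy, h⟩
    exact ⟨Q', h1, h2, h3⟩
  · intro x hx
    obtain ⟨γ, i, y, hy, h⟩ := hall x hx
    exact ⟨γ, γ.2, i, y, hy, h.symm⟩
  · have hi0 : ∑ j, t ⟨0, hN⟩ j ∈ inn (clo C ∩ Eff P) := by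
      intro w
      obtain ⟨ε, hε, h1⟩ := relint (t := t ⟨0, hN⟩) (J := Finset.univ) (a := fun _ => 1)
        (fun _ _ => one_pos) (w := w) (by
          rw [Finset.coe_univ, Set.image_univ, hc.full]; trivial)
      have h2 := h1 ε hε.le le_rfl (clo C ∩ Eff P) hcc fun j _ => hc.mem _ j
      simp only [one_smul] at h2
      exact ⟨ε, hε, h2⟩
    refine fin_index hd b hb hc.lattice hc.mem (G := Subgroup.closure S)
      (x0 := ∑ j, t ⟨0, hN⟩ j) (i0 := ⟨0, hN⟩)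
      ((cn_cone _).sum _ _ fun j _ => gen_mem _ j) hi0 fun x hx => ?_
    obtain ⟨γ, i, y, hy, h⟩ := hcov x hx
    exact ⟨γ, γ.2, i, y, hy, h⟩

end

end Pool.Agent.H899.NC
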