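import Pool.Agent.H899.NC.Gen

/-! The cone generated by the classes of the globally generated line bundles. -/

set_option autoImplicit false
set_option linter.overlappingInstances false
set_option linter.unusedSectionVars false
set_option linter.unusedVariables false

open FF Module Pool.Agent.K1H17.MC Pool.Agent.H899.LG

namespace Pool.Agent.H899.NC

section

variable {k K : Type} [Field k] [Field K] [Algebra k K] {P : Set (Place k K)} {H : P →₀ ℤ}

/-- Every real divisor is dominated by a multiple of the ample divisor. -/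
theorem unit_of {R : (P →₀ ℤ) → Prop} (hH : ∀ D : P →₀ ℤ, ∃ m : ℕ, 1 ≤ m ∧ R (m • H + D))
    (D : P →₀ ℝ) : ∃ c : ℝ, 0 < c ∧ c • rl P H + D ∈ cg {x | ∃ D, R D ∧ x = rl P D} := by
  classical
  have hz : ∀ (E : P →₀ ℤ) (a : ℝ), ∃ c : ℝ, 0 < c ∧
      c • rl P H + a • rl P E ∈ cg {x | ∃ D, R D ∧ x = rl P D} := by
    intro E a
    have h1 : ∀ (E : P →₀ ℤ) (a : ℝ), 0 < a → ∃ c : ℝ, 0 < c ∧
        c • rl P H + a • rl P E ∈ cg {x | ∃ D, R D ∧ x = rl P D} := by
      intro E a ha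
      obtain ⟨m, hm, hM⟩ := hH E
      have hm0 : (0 : ℝ) < m := by exact_mod_cast hm
      refine ⟨a * m, mul_pos ha hm0, ?_⟩
      have h2 : (a * m) • rl P H + a • rl P E = a • rl P (m • H + E) := by
        rw [map_add, map_nsmul, smul_add, ← Nat.cast_smul_eq_nsmul ℝ, smul_smul]
      rw [h2]
      exact (cg_cone _).smul _ ha.le _ (cg_gen ⟨_, hM, rfl⟩)
    rcases lt_trichotomy a 0 with ha | ha | ha
    · obtain ⟨c, hc, h2⟩ := h1 (-E) (-a) (by linarith)
      refine ⟨c, hc, ?_⟩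
      rwa [map_neg, smul_neg, neg_smul, neg_neg] at h2
    · obtain ⟨c, hc, h2⟩ := h1 0 1 one_pos
      refine ⟨c, hc, ?_⟩
      rw [ha, zero_smul]
      rwa [map_zero, smul_zero] at h2
    · exact h1 E a ha
  induction D using Finsupp.induction_linear with
  | zero =>
    obtain ⟨c, hc, h⟩ := hz 0 0
    exact ⟨c, hc, by rwa [zero_smul] at h⟩
  | add f g hf hg =>
    obtain ⟨c, hc, h⟩ := hf
    obtain ⟨c', hc', h'⟩ := hg
    refine ⟨c + c', add_pos hc hc', ?_⟩
    have h1 : (c + c') • rl P H + (f + g) = (c • rl P H + f) + (c' • rl P H + g) := by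
      rw [add_smul]; abel
    rw [h1]
    exact (cg_cone _).add _ h _ h'
  | single v a =>
    obtain ⟨c, hc, h⟩ := hz (Finsupp.single v 1) a
    refine ⟨c, hc, ?_⟩
    have h1 : a • rl P (Finsupp.single v 1) = Finsupp.single v a := by
      ext w
      rw [Finsupp.smul_apply, rl_apply]
      by_cases hvw : v = w
      · subst hvw; simp
      · simp [hvw]
    rwa [h1] at h

/-- The sum of two divisors without fixed components. -/
theorem mov_add {D E : P →₀ ℤ} (hD : Movable P D) (hE : Movable P E) : Movable P (D + E) := by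
  intro v
  obtain ⟨a, ⟨ha0, ha⟩, ha'⟩ := hD v
  obtain ⟨b, ⟨hb0, hb⟩, hb'⟩ := hE v
  refine ⟨a * b, ⟨mul_ne_zero ha0 hb0, fun w => ?_⟩, ?_⟩
  · rw [(w : Place k K).ord_mul ha0 hb0, Finsupp.add_apply]
    have := ha w
    have := hb w
    omega
  · rw [(v : Place k K).ord_mul ha0 hb0, Finsupp.add_apply, ha', hb']
    omega

theorem mov_nsmul {D : P →₀ ℤ} (hD : Movable P D) (n : ℕ) : Movable P (n • D) := by
  induction n with
  | zero =>
    rw [zero_smul]
    intro v
    refine ⟨1, ⟨one_ne_zero, fun w => ?_⟩, ?_⟩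
    · rw [(w : Place k K).ord_one, Finsupp.zero_apply, neg_zero]
    · rw [(v : Place k K).ord_one, Finsupp.zero_apply, neg_zero]
  | succ n ih =>
    rw [succ_nsmul]
    exact mov_add ih hD

/-- For arbitrarily large `m` the divisor `m H + D` has no fixed component. -/
theorem mov_large (hH : ∀ D : P →₀ ℤ, ∃ m : ℕ, 1 ≤ m ∧ Movable P (m • H + D)) (D : P →₀ ℤ)
    (m₀ : ℕ) : ∃ m : ℕ, m₀ ≤ m ∧ Movable P (D + m • H) := by
  obtain ⟨m1, h1, h2⟩ := hH D
  obtain ⟨m2, h3, h4⟩ := hH 0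
  rw [add_zero] at h4
  refine ⟨m1 + m₀ * m2, ?_, ?_⟩
  · have : m₀ * 1 ≤ m₀ * m2 := Nat.mul_le_mul_left _ h3
    omega
  · have h5 : D + (m1 + m₀ * m2) • H = (m1 • H + D) + m₀ • m2 • H := by
      rw [add_smul, mul_smul]
      abel
    rw [h5]
    exact mov_add h2 (mov_nsmul h4 _)

/-- A globally generated line bundle has no fixed component. -/
theorem gg_mov (hH : IsAmple P H) {D : P →₀ ℤ} (hD : IsGG P H D) : Movable P D := by
  intro v
  obtain ⟨m₀, h1⟩ := hD
  obtain ⟨m, hm, h2⟩ := mov_large hH.mov D m₀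
  obtain ⟨f, hf, hfv⟩ := h2 v
  have h3 := h1 m hm f hf
  by_contra hcon
  push Not at hcon
  let B : Submodule k K :=
    { carrier := {x | x ≠ 0 → -(D + m • H) v + 1 ≤ (v : Place k K).ord x}
      zero_mem' := fun h => absurd rfl h
      add_mem' := by
        intro x y hx hy hxy
        by_cases hx0 : x = 0
        · subst hx0
          rw [zero_add] at hxy ⊢
          exact hy hxy
        · by_cases hy0 : y = 0
          · subst hy0
            rw [add_zero] at hxy ⊢
            exact hx hxy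
          · exact (le_min (hx hx0) (hy hy0)).trans ((v : Place k K).ord_add hx0 hy0 hxy)
      smul_mem' := by
        intro c x hx hcx
        have hc : c ≠ 0 := fun h => hcx (by rw [h, zero_smul])
        have hx0 : x ≠ 0 := fun h => hcx (by rw [h, smul_zero])
        rw [Algebra.smul_def, (v : Place k K).ord_mul (by simpa using hc) hx0,
          (v : Place k K).ord_const hc, zero_add]
        exact hx hx0 }
  have h4 : Submodule.span k {x : K | ∃ a b, IsSec P D a ∧ IsSec P (m • H) b ∧ x = a * b} ≤ B := by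
    rw [Submodule.span_le]
    rintro x ⟨a, b, ha, hb, rfl⟩ -
    rw [(v : Place k K).ord_mul ha.1 hb.1, Finsupp.add_apply]
    have e1 := ha.2 v
    have e2 := hb.2 v
    have e3 := hcon a ha
    omega
  have h5 := h4 h3 hf.1
  rw [hfv] at h5
  omega

/-- The inclusion of the groups. -/
def inc (P : Set (Place k K)) (H : P →₀ ℤ) : autY P H →* psAut P :=
  Subgroup.inclusion (autY_le P H)

theorem gg_inv (g : autY P H) {x : N1 P} (hx : x ∈ Gg P H) :
    rho P (inc P H g) x ∈ Gg P H := by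
  obtain ⟨y, hy, rfl⟩ := hx
  refine ⟨pb (inc P H g) y, ?_, rfl⟩
  have h1 : IsCone {y | pb (inc P H g) y ∈ cg {x | ∃ D, IsGG P H D ∧ x = rl P D}} := by
    refine ⟨?_, ?_, ?_⟩
    · change pb (inc P H g) 0 ∈ cg _
      rw [map_zero]; exact (cg_cone _).zero
    · intro x hx y hy
      change pb (inc P H g) (x + y) ∈ cg _
      rw [map_add]; exact (cg_cone _).add _ hx _ hy
    · intro c hc x hx
      change pb (inc P H g) (c • x) ∈ cg _
      rw [map_smul]; exact (cg_cone _).smul _ hc _ hx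
  refine cg_sub h1 ?_ hy
  rintro _ ⟨D, hD, rfl⟩
  change pb (inc P H g) (rl P D) ∈ cg _
  rw [pb_rl]
  exact cg_gen ⟨_, (g.2.2 D).1 hD, rfl⟩

theorem invC (hH : IsAmple P H) : InvC (inc P H) (Gg P H) H where
  cone := image_cone _ (cg_cone _)
  eff := by
    rintro _ ⟨x, hx, rfl⟩
    refine ⟨x, cg_sub (cg_cone _) ?_ hx, rfl⟩
    rintro _ ⟨D, hD, rfl⟩
    exact cg_gen ⟨D, (gg_mov hH hD).sec, rfl⟩
  inv := fun g x hx => gg_inv g hx
  amp := by
    intro v
    obtain ⟨D, rfl⟩ := cls_surj v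
    obtain ⟨c, hc, h⟩ := unit_of (R := IsGG P H) (H := H) (fun D => by
      obtain ⟨m₀, h⟩ := hH.gg D
      exact ⟨max m₀ 1, le_max_right _ _, h _ (le_max_left _ _)⟩) D
    refine ⟨c⁻¹, inv_pos.2 hc, c⁻¹ • (c • rl P H + D), (cg_cone _).smul _
      (inv_pos.2 hc).le _ h, ?_⟩
    rw [smul_add, smul_smul, inv_mul_cancel₀ hc.ne', one_smul, map_add, map_smul]
  ample := hH.mov

/-- Nef classes are movable. -/
theorem Gg_sub (hH : IsAmple P H) : Gg P H ⊆ Mov P := by
  rintro _ ⟨x, hx, rfl⟩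
  refine ⟨x, cg_sub (cg_cone _) ?_ hx, rfl⟩
  rintro _ ⟨D, hD, rfl⟩
  exact cg_gen ⟨D, gg_mov hH hD, rfl⟩

theorem cert_iff {S : Set (autY P H)} {N : ℕ} {m : Fin N → ℕ} {t : ∀ i, Fin (m i) → N1 P} :
    Certificate P H S t ↔ CertG (inc P H) (clo (Gg P H) ∩ Eff P) S t :=
  ⟨fun h => ⟨h.lattice, h.nef, h.full, fun i ℓ h1 h2 h3 h4 => h.walls i ℓ ⟨h1, h2, h3, h4⟩⟩,
    fun h => ⟨h.lattice, h.mem, h.full, fun i ℓ hw => h.walls i ℓ hw.1 hw.2.1 hw.2.2.1 hw.2.2.2⟩⟩

end

end Pool.Agent.H899.NC
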